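import Mathlib

set_option autoImplicit false

/-!
# Spectral sums of the connection matrix and of the Dirac matrix beyond the number of vertices

For a finite abstract simplicial complex `G` (of any dimension) with `n` simplices, `v` vertices,
`n₀` simplices with an odd and `n₁` simplices with an even number of vertices, and `N` pairs of a
simplex and one of its facets, let `L` be the connection matrix, `D` the Dirac matrix and `S_k` the
sum of the `k` largest eigenvalues. We prove:

* `S_k(L) ≥ n` for all `v ≤ k ≤ n`;
* `S_k(D) ≤ min n₀ n₁ + N / 4` for all `k ≤ n`;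
* hence `S_k(L) ≥ S_k(D)` for all `v ≤ k ≤ n` if `N ≤ 4 max n₀ n₁`.

The condition holds for all graphs, for all complexes of dimension two with `3 t ≤ 2 e`
(`e` edges, `t` triangles; for example triangulated surfaces), and so on.
-/

namespace Pool.Agent.Results.MP_0ad4be_co.FewFacets

open Finset Matrix

section defs

/-- The sum of the `k` largest eigenvalues (with multiplicity) of a symmetric matrix. -/
noncomputable def specSum {ι : Type*} [Fintype ι] [DecidableEq ι] {A : Matrix ι ι ℝ}
    (hA : A.IsHermitian) (k : ℕ) : ℝ :=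
  ∑ i : Fin (Fintype.card ι), if (i : ℕ) < k then hA.eigenvalues₀ i else 0

end defs

section spec

variable {ι : Type*} [Fintype ι] [DecidableEq ι]

lemma weights_le (K : Finset ι) (h q : ι → ℝ) (htop : ∀ i ∈ K, ∀ j, j ∉ K → h j ≤ h i)
    (hq0 : ∀ i, 0 ≤ q i) (hq1 : ∀ i, q i ≤ 1)
    (hq : ∑ i, q i = K.card ∨ (∑ i, q i ≤ K.card ∧ ∀ i, 0 ≤ h i)) :
    ∑ i, q i * h i ≤ ∑ i ∈ K, h i := by
  rcases K.eq_empty_or_nonempty with rfl | hK
  · have h0 : ∑ i, q i = 0 := by
      rcases hq with hq | ⟨hq, -⟩
      · simpa using hq
      · exact le_antisymm (by simpa using hq) (Finset.sum_nonneg fun i _ => hq0 i)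
    have : ∀ i, q i = 0 := fun i =>
      (Finset.sum_eq_zero_iff_of_nonneg (fun i _ => hq0 i)).1 h0 i (Finset.mem_univ i)
    simp [this]
  · obtain ⟨i0, hi0, hmin⟩ := Finset.exists_min_image K h hK
    have h1 : ∑ i, q i * (h i - h i0) ≤ ∑ i ∈ K, (h i - h i0) := by
      have e : ∑ i ∈ K, (h i - h i0) = ∑ i, if i ∈ K then h i - h i0 else 0 := by
        rw [Finset.sum_ite_mem, Finset.univ_inter]
      rw [e]
      refine Finset.sum_le_sum fun i _ => ?_
      by_cases hi : i ∈ K
      · rw [if_pos hi]; nlinarith [hmin i hi, hq1 i, hq0 i]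
      · rw [if_neg hi]; nlinarith [htop i0 hi0 i hi, hq0 i]
    have h2 : h i0 * ∑ i, q i ≤ h i0 * K.card := by
      rcases hq with hq | ⟨hq, hpos⟩
      · rw [hq]
      · exact mul_le_mul_of_nonneg_left hq (hpos i0)
    have h3 : ∑ i, q i * h i = ∑ i, q i * (h i - h i0) + h i0 * ∑ i, q i := by
      rw [Finset.mul_sum, ← Finset.sum_add_distrib]
      exact Finset.sum_congr rfl fun i _ => by ring
    have h4 : ∑ i ∈ K, h i = ∑ i ∈ K, (h i - h i0) + h i0 * K.card := by
      rw [Finset.sum_sub_distrib, Finset.sum_const, nsmul_eq_mul]; ring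
    linarith

lemma exists_top {A : Matrix ι ι ℝ} (hA : A.IsHermitian) (k : ℕ) (hk : k ≤ Fintype.card ι) :
    ∃ K : Finset ι, K.card = k ∧ specSum hA k = ∑ i ∈ K, hA.eigenvalues i ∧
      ∀ i ∈ K, ∀ j, j ∉ K → hA.eigenvalues j ≤ hA.eigenvalues i := by
  set e : Fin (Fintype.card ι) ≃ ι := Fintype.equivOfCardEq (Fintype.card_fin _) with he
  have hev : ∀ i : Fin (Fintype.card ι), hA.eigenvalues (e i) = hA.eigenvalues₀ i := by
    intro i
    simp [Matrix.IsHermitian.eigenvalues, he]
  refine ⟨(Finset.univ.filter (fun i : Fin (Fintype.card ι) => (i : ℕ) < k)).map e.toEmbedding,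
    ?_, ?_, ?_⟩
  · rw [Finset.card_map]
    have : (Finset.univ.filter (fun i : Fin (Fintype.card ι) => (i : ℕ) < k)).card
        = min k (Fintype.card ι) := by
      rw [Fin.card_filter_val_lt]; exact min_comm _ _
    rw [this]; exact min_eq_left hk
  · rw [Finset.sum_map]
    simp only [Equiv.coe_toEmbedding, hev]
    rw [specSum, Finset.sum_filter]
  · intro i hi j hj
    simp only [Finset.mem_map, Finset.mem_filter, Finset.mem_univ, true_and,
      Equiv.coe_toEmbedding, not_exists, not_and] at hi hj
    obtain ⟨a, ha, rfl⟩ := hi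
    have hj' : ¬ ((e.symm j : Fin _) : ℕ) < k := fun h => hj (e.symm j) h (by simp)
    have := hev (e.symm j)
    rw [Equiv.apply_symm_apply] at this
    rw [this, hev]
    apply hA.eigenvalues₀_antitone
    have : (a : ℕ) ≤ (e.symm j : ℕ) := by omega
    exact this

lemma exists_U {A : Matrix ι ι ℝ} (hA : A.IsHermitian) :
    ∃ U : Matrix ι ι ℝ, (∀ i j, ∑ x, U x i * U x j = if i = j then 1 else 0) ∧
      ∀ x i, ∑ y, A x y * U y i = hA.eigenvalues i * U x i := by
  refine ⟨(hA.eigenvectorUnitary : Matrix ι ι ℝ), ?_, ?_⟩
  · intro i j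
    have := Unitary.coe_star_mul_self hA.eigenvectorUnitary
    have := congrFun (congrFun this i) j
    simpa [Matrix.star_eq_conjTranspose, Matrix.conjTranspose_eq_transpose_of_trivial,
      Matrix.mul_apply, Matrix.one_apply] using this
  · intro x i
    have := congrFun (hA.mulVec_eigenvectorBasis i) x
    simpa [Matrix.mulVec, dotProduct, Matrix.IsHermitian.eigenvectorUnitary_apply] using this

/-- Ky Fan: the trace of `A` times a projection of rank `k`. -/
lemma trace_le {A P : Matrix ι ι ℝ} (hA : A.IsHermitian) (k : ℕ) (hk : k ≤ Fintype.card ι)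
    (hP : P * P = P) (hPt : Pᵀ = P) (htr : P.trace = k) :
    (A * P).trace ≤ specSum hA k := by
  obtain ⟨K, hKc, hKs, htop⟩ := exists_top hA k hk
  set U : Matrix ι ι ℝ := (hA.eigenvectorUnitary : Matrix ι ι ℝ) with hU
  have hUU : Uᵀ * U = 1 := by
    have := Unitary.coe_star_mul_self hA.eigenvectorUnitary
    simpa [Matrix.star_eq_conjTranspose, Matrix.conjTranspose_eq_transpose_of_trivial] using this
  have hUU' : U * Uᵀ = 1 := by
    have := Unitary.coe_mul_star_self hA.eigenvectorUnitary
    simpa [Matrix.star_eq_conjTranspose, Matrix.conjTranspose_eq_transpose_of_trivial] using this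
  have hsp : A = U * Matrix.diagonal hA.eigenvalues * Uᵀ := by
    have := hA.spectral_theorem
    rw [Unitary.conjStarAlgAut_apply] at this
    simpa [Matrix.star_eq_conjTranspose, Matrix.conjTranspose_eq_transpose_of_trivial,
      Function.comp_def] using this
  set Q : Matrix ι ι ℝ := Uᵀ * P * U with hQ
  have hQQ : Q * Q = Q := by
    calc Q * Q = Uᵀ * P * (U * Uᵀ) * P * U := by simp only [hQ, Matrix.mul_assoc]
      _ = Uᵀ * (P * P) * U := by rw [hUU']; simp only [Matrix.mul_assoc, Matrix.one_mul]
      _ = Q := by rw [hP]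
  have hQt : Qᵀ = Q := by
    simp [hQ, Matrix.transpose_mul, hPt, Matrix.mul_assoc]
  have hQtr : Q.trace = k := by
    rw [hQ, Matrix.trace_mul_comm, ← Matrix.mul_assoc, hUU', Matrix.one_mul, htr]
  have hAP : (A * P).trace = ∑ i, Q i i * hA.eigenvalues i := by
    have e1 : (A * P).trace = (U * Matrix.diagonal hA.eigenvalues * Uᵀ * P).trace :=
      congrArg (fun M => (M * P).trace) hsp
    have : (A * P).trace = (Matrix.diagonal hA.eigenvalues * Q).trace := by
      rw [e1, hQ, Matrix.mul_assoc, Matrix.mul_assoc, Matrix.trace_mul_comm]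
      simp only [Matrix.mul_assoc]
    rw [this, Matrix.trace]
    refine Finset.sum_congr rfl fun i _ => ?_
    rw [Matrix.diag_apply, Matrix.diagonal_mul, mul_comm]
  have hsq : ∀ i, Q i i = ∑ j, Q i j ^ 2 := by
    intro i
    have := congrFun (congrFun hQQ i) i
    rw [Matrix.mul_apply] at this
    rw [← this]
    refine Finset.sum_congr rfl fun j _ => ?_
    have h2 := congrFun (congrFun hQt i) j
    rw [Matrix.transpose_apply] at h2
    rw [h2]; ring
  have h0 : ∀ i, 0 ≤ Q i i := fun i => by
    rw [hsq]; exact Finset.sum_nonneg fun j _ => sq_nonneg _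
  have h1 : ∀ i, Q i i ≤ 1 := fun i => by
    have : Q i i ^ 2 ≤ Q i i := by
      conv_rhs => rw [hsq]
      exact Finset.single_le_sum (f := fun j => Q i j ^ 2) (fun j _ => sq_nonneg _)
        (Finset.mem_univ i)
    nlinarith [h0 i]
  rw [hAP, hKs]
  refine weights_le K _ _ htop h0 h1 (Or.inl ?_)
  rw [hKc]; exact hQtr

lemma specSum_card {A : Matrix ι ι ℝ} (hA : A.IsHermitian) :
    specSum hA (Fintype.card ι) = A.trace := by
  obtain ⟨K, hKc, hKs, -⟩ := exists_top hA (Fintype.card ι) le_rfl
  have : K = Finset.univ := Finset.eq_univ_of_card K hKc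
  rw [hKs, this]
  have := hA.trace_eq_sum_eigenvalues
  simpa using this.symm

/-- Concavity: beyond `v`, the spectral sums are at least the minimum of `S_v` and `S_n`. -/
lemma specSum_ge {A : Matrix ι ι ℝ} (hA : A.IsHermitian) (v k : ℕ) (hvk : v ≤ k)
    (c : ℝ) (hv : c ≤ specSum hA v) (hn : c ≤ A.trace) :
    c ≤ specSum hA k := by
  by_cases hneg : ∀ i : Fin (Fintype.card ι), (i : ℕ) < k → 0 ≤ hA.eigenvalues₀ i
  · refine hv.trans ?_
    unfold specSum
    refine Finset.sum_le_sum fun i _ => ?_
    by_cases h1 : (i : ℕ) < v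
    · rw [if_pos h1, if_pos (by omega)]
    · rw [if_neg h1]
      split_ifs with h2
      · exact hneg i h2
      · exact le_rfl
  · push Not at hneg
    obtain ⟨i0, hi0, hneg⟩ := hneg
    rw [← specSum_card hA] at hn
    refine hn.trans ?_
    unfold specSum
    refine Finset.sum_le_sum fun i _ => ?_
    rw [if_pos i.2]
    split_ifs with h2
    · exact le_rfl
    · refine (hA.eigenvalues₀_antitone (show i0 ≤ i from ?_)).trans hneg.le
      have : (i0 : ℕ) ≤ i := by omega
      exact this

end spec
section complexes

/-- A finite abstract simplicial complex: a finite set of nonempty finite sets closed under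
taking nonempty subsets. -/
structure IsComplex {V : Type} [DecidableEq V] (G : Finset (Finset V)) : Prop where
  nonempty : ∀ x ∈ G, x.Nonempty
  down : ∀ x ∈ G, ∀ y : Finset V, y ⊆ x → y.Nonempty → y ∈ G

/-- The connection matrix. -/
def connection {V : Type} [DecidableEq V] (G : Finset (Finset V)) : Matrix G G ℝ :=
  fun x y => if (x.1 ∩ y.1).Nonempty then 1 else 0

/-- The exterior derivative. The vertices are ordered; the simplex `x` has the orientation given by
this order if `o x = 1` and the opposite one if `o x = -1`. The incidence sign of `x` and its facet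
`y` for the orientations given by the order is `(-1) ^ m`, where `m` is the number of vertices of
`y` before the vertex in `x \ y`. -/
def exteriorDerivative {V : Type} [LinearOrder V] (G : Finset (Finset V)) (o : G → ℤˣ) :
    Matrix G G ℝ :=
  fun x y => if y.1 ⊆ x.1 ∧ x.1.card = y.1.card + 1 then
    (((o x * o y * (-1) ^ (y.1.filter (fun z => ∀ w ∈ x.1 \ y.1, z < w)).card : ℤˣ) : ℤ) : ℝ)
    else 0

/-- The Dirac matrix. -/
def dirac {V : Type} [LinearOrder V] (G : Finset (Finset V)) (o : G → ℤˣ) : Matrix G G ℝ :=
  exteriorDerivative G o + (exteriorDerivative G o)ᵀ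

lemma connection_isHermitian {V : Type} [DecidableEq V] (G : Finset (Finset V)) :
    (connection G).IsHermitian := by
  ext x y
  simp [connection, Finset.inter_comm]

lemma dirac_isHermitian {V : Type} [LinearOrder V] (G : Finset (Finset V)) (o : G → ℤˣ) :
    (dirac G o).IsHermitian := by
  ext x y
  simp [dirac, add_comm]

end complexes

section lower

variable {V : Type} [DecidableEq V] {G : Finset (Finset V)}

omit [DecidableEq V] in
lemma eq_of_sub {x y : G} (hx : x.1.card = 1) (hy : y.1.card = 1) (h : x.1 ⊆ y.1) : x = y :=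
  Subtype.ext (Finset.eq_of_subset_of_card_le h (by omega))

/-- The lower bound: `S_k(L)` is at least the number of simplices hit by `k` vertices. -/
lemma connection_ge (T : Finset G) (hT : ∀ t ∈ T, t.1.card = 1) :
    ((Finset.univ.filter (fun x : G => ∃ t ∈ T, t.1 ⊆ x.1)).card : ℝ)
      ≤ specSum (connection_isHermitian G) T.card := by
  classical
  obtain ⟨c, hc⟩ : ∃ c : G → Option G,
      ∀ x, c x = if h : ∃ t ∈ T, t.1 ⊆ x.1 then some h.choose else none := ⟨_, fun _ => rfl⟩
  have hc1 : ∀ x t, c x = some t → t ∈ T ∧ t.1 ⊆ x.1 := by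
    intro x t h
    by_cases hx : ∃ t ∈ T, t.1 ⊆ x.1
    · have h2 : c x = some hx.choose := by rw [hc, dif_pos hx]
      rw [h2] at h
      have := hx.choose_spec
      rw [Option.some.inj h] at this
      exact this
    · have h2 : c x = none := by rw [hc, dif_neg hx]
      rw [h2] at h; cases h
  have hc2 : ∀ x, c x ≠ none ↔ ∃ t ∈ T, t.1 ⊆ x.1 := by
    intro x
    by_cases hx : ∃ t ∈ T, t.1 ⊆ x.1
    · have h2 : c x = some hx.choose := by rw [hc, dif_pos hx]
      rw [h2]; simp only [ne_eq, reduceCtorEq, not_false_eq_true, true_iff]; exact hx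
    · have h2 : c x = none := by rw [hc, dif_neg hx]
      rw [h2]; simp only [ne_eq, not_true_eq_false, false_iff]; exact hx
  have hc3 : ∀ t ∈ T, c t = some t := by
    intro t ht
    have h1 : c t ≠ none := (hc2 t).2 ⟨t, ht, Finset.Subset.refl _⟩
    obtain ⟨s, hs⟩ := Option.ne_none_iff_exists'.1 h1
    obtain ⟨hsT, hst⟩ := hc1 t s hs
    rw [hs, eq_of_sub (hT s hsT) (hT t ht) hst]
  obtain ⟨N, hN⟩ : ∃ N : Option G → ℕ,
      ∀ s, (Finset.univ.filter (fun x => c x = s)).card = N s := ⟨_, fun _ => rfl⟩
  obtain ⟨P, hPdef⟩ : ∃ P : Matrix G G ℝ,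
      ∀ x y, P x y = if c x = c y ∧ c x ≠ none then (1 : ℝ) / N (c x) else 0 :=
    ⟨fun x y => if c x = c y ∧ c x ≠ none then (1 : ℝ) / N (c x) else 0, fun _ _ => rfl⟩
  have hrow : ∀ x, c x ≠ none → ∑ y, P x y = 1 := by
    intro x hx
    have : ∀ y, P x y = if c y = c x then (1 : ℝ) / N (c x) else 0 := by
      intro y
      rw [hPdef]
      by_cases h : c y = c x
      · rw [if_pos ⟨h.symm, hx⟩, if_pos h]
      · rw [if_neg (fun h' => h h'.1.symm), if_neg h]
    simp only [this]
    rw [← Finset.sum_filter, Finset.sum_const, nsmul_eq_mul]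
    have hpos : 0 < N (c x) := by
      rw [← hN]
      exact Finset.card_pos.2 ⟨x, Finset.mem_filter.2 ⟨Finset.mem_univ _, rfl⟩⟩
    rw [hN]
    have hne : (N (c x) : ℝ) ≠ 0 := Nat.cast_ne_zero.2 hpos.ne'
    exact mul_one_div_cancel hne
  have hrow0 : ∀ x, c x = none → ∀ y, P x y = 0 := by
    intro x hx y
    rw [hPdef, if_neg (fun h => h.2 hx)]
  have hPt : Pᵀ = P := by
    ext x y
    rw [Matrix.transpose_apply, hPdef, hPdef]
    by_cases h : c x = c y
    · rw [h]
    · rw [if_neg (fun h' => h h'.1.symm), if_neg (fun h' => h h'.1)]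
  have hPP : P * P = P := by
    ext x y
    rw [Matrix.mul_apply]
    by_cases hx : c x = none
    · rw [hrow0 x hx y]
      exact Finset.sum_eq_zero fun z _ => by rw [hrow0 x hx z, zero_mul]
    · have : ∀ z, P x z * P z y = P x z * P x y := by
        intro z
        by_cases h : c x = c z
        · have : P z y = P x y := by simp only [hPdef]; rw [h]
          rw [this]
        · have : P x z = 0 := by rw [hPdef, if_neg (fun h' => h h'.1)]
          rw [this]; ring
      simp only [this]
      rw [← Finset.sum_mul, hrow x hx, one_mul]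
  have htr : P.trace = T.card := by
    have h1 : ∀ x, P x x = ∑ t ∈ T, if c x = some t then (1 : ℝ) / N (some t) else 0 := by
      intro x
      by_cases hx : c x = none
      · rw [hrow0 x hx x]
        exact (Finset.sum_eq_zero fun t _ => by rw [hx]; simp).symm
      · obtain ⟨s, hs⟩ := Option.ne_none_iff_exists'.1 hx
        have hsT := (hc1 x s hs).1
        rw [Finset.sum_eq_single_of_mem s hsT]
        · rw [hPdef, if_pos ⟨rfl, hx⟩, if_pos hs, hs]
        · intro t _ hts
          rw [if_neg]
          rw [hs]
          exact fun h => hts (Option.some.inj h).symm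
    rw [Matrix.trace]
    simp only [Matrix.diag_apply, h1]
    rw [Finset.sum_comm]
    have h2 : ∀ t ∈ T, ∑ x, (if c x = some t then (1 : ℝ) / N (some t) else 0) = 1 := by
      intro t ht
      have := hrow t (by rw [hc3 t ht]; simp)
      refine Eq.trans ?_ this
      refine Finset.sum_congr rfl fun x _ => ?_
      rw [hPdef, hc3 t ht]
      by_cases h : c x = some t
      · rw [if_pos h, if_pos ⟨h.symm, by simp⟩]
      · rw [if_neg h, if_neg (fun h' => h h'.1.symm)]
    rw [Finset.sum_congr rfl h2]
    simp
  have hk : T.card ≤ Fintype.card G := Finset.card_le_univ T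
  refine le_trans (le_of_eq ?_) (trace_le (connection_isHermitian G) T.card hk hPP hPt htr)
  rw [Matrix.trace]
  have h3 : ∀ x, (connection G * P).diag x = if ∃ t ∈ T, t.1 ⊆ x.1 then (1 : ℝ) else 0 := by
    intro x
    rw [Matrix.diag_apply, Matrix.mul_apply]
    have h4 : ∀ y, connection G x y * P y x = P x y := by
      intro y
      have h5 : P y x = P x y := congrFun (congrFun hPt x) y
      rw [h5]
      by_cases h : c x = c y ∧ c x ≠ none
      · obtain ⟨s, hs⟩ := Option.ne_none_iff_exists'.1 h.2
        have h6 := (hc1 x s hs)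
        have h7 := (hc1 y s (by rw [← h.1, hs]))
        have hne : (x.1 ∩ y.1).Nonempty := by
          have : s.1.Nonempty := Finset.card_pos.1 (by rw [hT s h6.1]; norm_num)
          obtain ⟨a, ha⟩ := this
          exact ⟨a, Finset.mem_inter.2 ⟨h6.2 ha, h7.2 ha⟩⟩
        simp only [connection]
        rw [if_pos hne, one_mul]
      · have : P x y = 0 := by rw [hPdef, if_neg h]
        rw [this, mul_zero]
    simp only [h4]
    by_cases hx : c x = none
    · rw [if_neg (fun h => (hc2 x).2 h hx)]
      exact Finset.sum_eq_zero fun y _ => hrow0 x hx y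
    · rw [if_pos ((hc2 x).1 hx)]
      exact hrow x hx
  simp only [h3]
  rw [Finset.sum_ite]
  simp

end lower


section upper

variable {V : Type} [LinearOrder V] {G : Finset (Finset V)}

lemma dirac_symm (o : G → ℤˣ) (x y : G) : dirac G o x y = dirac G o y x := by
  simp [dirac, add_comm]

lemma unit_sq (u : ℤˣ) : (((u : ℤ) : ℝ)) ^ 2 = 1 := by
  rcases Int.units_eq_one_or u with rfl | rfl <;> simp

lemma ext_sq (o : G → ℤˣ) (x y : G) : exteriorDerivative G o x y ^ 2
    = if y.1 ⊆ x.1 ∧ x.1.card = y.1.card + 1 then 1 else 0 := by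
  unfold exteriorDerivative
  split_ifs
  · exact unit_sq _
  · norm_num

lemma ext_zero (o : G → ℤˣ) (x y : G) (h : ¬ (y.1 ⊆ x.1 ∧ x.1.card = y.1.card + 1)) :
    exteriorDerivative G o x y = 0 := by
  unfold exteriorDerivative
  rw [if_neg h]

lemma dirac_apply (o : G → ℤˣ) (x y : G) :
    dirac G o x y = exteriorDerivative G o x y + exteriorDerivative G o y x := rfl

lemma eps_dirac (o : G → ℤˣ) (x y : G) :
    ((-1 : ℝ) ^ x.1.card + (-1) ^ y.1.card) * dirac G o x y = 0 := by
  rw [dirac_apply]
  by_cases h1 : y.1 ⊆ x.1 ∧ x.1.card = y.1.card + 1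
  · rw [h1.2, pow_succ]; ring
  · by_cases h2 : x.1 ⊆ y.1 ∧ y.1.card = x.1.card + 1
    · rw [h2.2, pow_succ]; ring
    · rw [ext_zero o x y h1, ext_zero o y x h2]; ring

/-- The number of pairs of a simplex and one of its facets. -/
def incidences (G : Finset (Finset V)) : ℕ :=
  ((Finset.univ : Finset (G × G)).filter
    (fun p => p.2.1 ⊆ p.1.1 ∧ p.1.1.card = p.2.1.card + 1)).card

/-- The number of simplices with an even number of vertices (`even = true`), respectively with an
odd number of vertices (`even = false`). -/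
def parityCount (G : Finset (Finset V)) (even : Bool) : ℕ :=
  ((Finset.univ : Finset G).filter (fun x => decide (Even x.1.card) = even)).card

lemma dirac_sq (o : G → ℤˣ) (x y : G) : dirac G o x y ^ 2
    = (if y.1 ⊆ x.1 ∧ x.1.card = y.1.card + 1 then 1 else 0)
      + (if x.1 ⊆ y.1 ∧ y.1.card = x.1.card + 1 then 1 else 0) := by
  rw [dirac_apply]
  by_cases h1 : y.1 ⊆ x.1 ∧ x.1.card = y.1.card + 1
  · have h2 : ¬ (x.1 ⊆ y.1 ∧ y.1.card = x.1.card + 1) := by
      rintro ⟨-, h⟩; have := h1.2; omega
    rw [ext_zero o y x h2, if_neg h2, add_zero, ext_sq, if_pos h1, add_zero]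
  · rw [ext_zero o x y h1, if_neg h1, zero_add, ext_sq, zero_add]

lemma dirac_le (o : G → ℤˣ) (even : Bool) (k : ℕ) (hk : k ≤ Fintype.card G) :
    specSum (dirac_isHermitian G o) k ≤ parityCount G even + (incidences G : ℝ) / 4 := by
  classical
  obtain ⟨K, hKc, hKs, -⟩ := exists_top (dirac_isHermitian G o) k hk
  obtain ⟨U, hU, hev⟩ := exists_U (dirac_isHermitian G o)
  set lam := (dirac_isHermitian G o).eigenvalues with hlam
  set I := K.filter (fun i => 0 < lam i) with hI
  have hIpos : ∀ i ∈ I, 0 < lam i := fun i hi => (Finset.mem_filter.1 hi).2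
  have hr : ∀ i ∈ I, ∀ j ∈ I, ∑ x : G, (-1 : ℝ) ^ x.1.card * (U x i * U x j) = 0 := by
    intro i hi j hj
    have e1 : ∑ x : G, ∑ y : G, ((-1 : ℝ) ^ x.1.card * dirac G o x y) * (U x i * U y j)
        = lam j * ∑ x : G, (-1 : ℝ) ^ x.1.card * (U x i * U x j) := by
      rw [Finset.mul_sum]
      refine Finset.sum_congr rfl fun x _ => ?_
      have := hev x j
      calc ∑ y : G, ((-1 : ℝ) ^ x.1.card * dirac G o x y) * (U x i * U y j)
          = ((-1 : ℝ) ^ x.1.card * U x i) * ∑ y : G, dirac G o x y * U y j := by
            rw [Finset.mul_sum]; exact Finset.sum_congr rfl fun y _ => by ring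
        _ = _ := by rw [this]; ring
    have e2 : ∑ x : G, ∑ y : G, ((-1 : ℝ) ^ y.1.card * dirac G o x y) * (U x i * U y j)
        = lam i * ∑ x : G, (-1 : ℝ) ^ x.1.card * (U x i * U x j) := by
      rw [Finset.sum_comm, Finset.mul_sum]
      refine Finset.sum_congr rfl fun y _ => ?_
      have := hev y i
      calc ∑ x : G, ((-1 : ℝ) ^ y.1.card * dirac G o x y) * (U x i * U y j)
          = ((-1 : ℝ) ^ y.1.card * U y j) * ∑ x : G, dirac G o y x * U x i := by
            rw [Finset.mul_sum]
            exact Finset.sum_congr rfl fun x _ => by rw [dirac_symm o y x]; ring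
        _ = _ := by rw [this]; ring
    have e3 : (lam j + lam i) * ∑ x : G, (-1 : ℝ) ^ x.1.card * (U x i * U x j) = 0 := by
      rw [add_mul, ← e1, ← e2, ← Finset.sum_add_distrib]
      refine Finset.sum_eq_zero fun x _ => ?_
      rw [← Finset.sum_add_distrib]
      refine Finset.sum_eq_zero fun y _ => ?_
      rw [← add_mul, ← add_mul, eps_dirac, zero_mul]
    have := hIpos i hi
    have := hIpos j hj
    rcases mul_eq_zero.1 e3 with h | h
    · linarith
    · exact h
  -- the parts of one parity
  have hpow : ∀ x : G, (-1 : ℝ) ^ x.1.card = if decide (Even x.1.card) = true then 1 else -1 := by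
    intro x
    by_cases h : Even x.1.card
    · rw [h.neg_one_pow, if_pos (by simpa using h)]
    · rw [(Nat.not_even_iff_odd.1 h).neg_one_pow, if_neg (by simpa using h)]
  have hV : ∀ b : Bool, ∀ i ∈ I, ∀ j ∈ I,
      ∑ x : G, (if decide (Even x.1.card) = b then U x i * U x j else 0)
      = if i = j then 1 / 2 else 0 := by
    intro b i hi j hj
    have h1 : ∀ x : G, (if decide (Even x.1.card) = b then U x i * U x j else 0)
        = (U x i * U x j + (if b = true then 1 else -1)
          * ((-1 : ℝ) ^ x.1.card * (U x i * U x j))) / 2 := by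
      intro x
      rw [hpow x]
      cases b <;> cases hdec : decide (Even x.1.card) <;> simp <;> ring
    simp only [h1]
    rw [← Finset.sum_div, Finset.sum_add_distrib, ← Finset.mul_sum, hr i hi j hj, hU i j]
    split_ifs <;> norm_num
  -- Bessel
  have hB : ∀ (b : Bool) (z : G → ℝ), (∀ y, decide (Even y.1.card) ≠ b → z y = 0) →
      ∑ i ∈ I, (∑ y, z y * U y i) ^ 2 ≤ (∑ y, z y ^ 2) / 2 := by
    intro b z hz
    obtain ⟨c, hc⟩ : ∃ c : G → ℝ, ∀ i, ∑ y, z y * U y i = c i := ⟨_, fun _ => rfl⟩
    simp only [hc]
    obtain ⟨w, hw⟩ : ∃ w : G → ℝ, ∀ y, w y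
        = if decide (Even y.1.card) = b then ∑ i ∈ I, c i * U y i else 0 := ⟨_, fun _ => rfl⟩
    have h1 : ∑ y, w y ^ 2 = (∑ i ∈ I, c i ^ 2) / 2 := by
      have h4 : ∀ y : G, w y ^ 2 = ∑ i ∈ I, ∑ j ∈ I, c i * c j
          * (if decide (Even y.1.card) = b then U y i * U y j else 0) := by
        intro y
        rw [hw]
        by_cases h : decide (Even y.1.card) = b
        · simp only [if_pos h]
          rw [sq, Finset.sum_mul_sum]
          exact Finset.sum_congr rfl fun i _ => Finset.sum_congr rfl fun j _ => by ring
        · simp only [if_neg h, mul_zero, Finset.sum_const_zero]; norm_num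
      simp only [h4]
      rw [Finset.sum_comm, Finset.sum_div]
      refine Finset.sum_congr rfl fun i hi => ?_
      rw [Finset.sum_comm]
      have h6 : ∀ j ∈ I, ∑ y : G, c i * c j
          * (if decide (Even y.1.card) = b then U y i * U y j else 0)
          = if i = j then c i ^ 2 / 2 else 0 := by
        intro j hj
        rw [← Finset.mul_sum, hV b i hi j hj]
        split_ifs with h
        · rw [h]; ring
        · ring
      rw [Finset.sum_congr rfl h6, Finset.sum_ite_eq, if_pos hi]
    have h2 : ∑ y, z y * w y = ∑ i ∈ I, c i ^ 2 := by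
      have h4 : ∀ y : G, z y * w y = ∑ i ∈ I, c i * (z y * U y i) := by
        intro y
        rw [hw]
        by_cases h : decide (Even y.1.card) = b
        · rw [if_pos h, Finset.mul_sum]
          exact Finset.sum_congr rfl fun i _ => by ring
        · rw [if_neg h, hz y h]; simp
      simp only [h4]
      rw [Finset.sum_comm]
      refine Finset.sum_congr rfl fun i _ => ?_
      rw [← Finset.mul_sum, hc]; ring
    have h3 : ∑ y, (z y - 2 * w y) ^ 2
        = ∑ y, z y ^ 2 - 4 * ∑ y, z y * w y + 4 * ∑ y, w y ^ 2 := by
      rw [Finset.mul_sum, Finset.mul_sum, ← Finset.sum_sub_distrib, ← Finset.sum_add_distrib]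
      exact Finset.sum_congr rfl fun y _ => by ring
    have h5 : 0 ≤ ∑ y, (z y - 2 * w y) ^ 2 := Finset.sum_nonneg fun y _ => sq_nonneg _
    rw [h3, h2, h1] at h5
    linarith
  -- the number of positive eigenvalues
  have hcardI : (I.card : ℝ) ≤ parityCount G even := by
    have h1 : (I.card : ℝ)
        = 2 * ∑ i ∈ I, ∑ x : G, (if decide (Even x.1.card) = even then U x i * U x i else 0) := by
      have : ∀ i ∈ I, ∑ x : G, (if decide (Even x.1.card) = even then U x i * U x i else 0)
          = 1 / 2 := by
        intro i hi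
        rw [hV even i hi i hi, if_pos rfl]
      rw [Finset.sum_congr rfl this, Finset.sum_const, nsmul_eq_mul]; ring
    rw [h1, Finset.sum_comm, Finset.mul_sum]
    have h2 : ∀ x : G, 2 * ∑ i ∈ I, (if decide (Even x.1.card) = even then U x i * U x i else 0)
        ≤ if decide (Even x.1.card) = even then 1 else 0 := by
      intro x
      by_cases h : decide (Even x.1.card) = even
      · simp only [if_pos h]
        have h3 := hB even (fun y => if y = x then 1 else 0) (by
          intro y hy
          show (if y = x then (1 : ℝ) else 0) = 0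
          rw [if_neg]
          rintro rfl
          exact hy h)
        have h4 : ∑ y : G, (if y = x then (1 : ℝ) else 0) ^ 2 = 1 := by
          simp
        have h5 : ∀ i, ∑ y : G, (if y = x then (1 : ℝ) else 0) * U y i = U x i := by
          intro i; simp
        simp only [h4, h5] at h3
        have h6 : ∑ i ∈ I, U x i * U x i = ∑ i ∈ I, U x i ^ 2 :=
          Finset.sum_congr rfl fun i _ => by ring
        rw [h6]; linarith
      · simp only [if_neg h, Finset.sum_const_zero, mul_zero, le_refl]
    refine (Finset.sum_le_sum fun x _ => h2 x).trans (le_of_eq ?_)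
    rw [Finset.sum_ite]; simp [parityCount]
  -- the sum of the squares
  have hsq : ∑ i ∈ I, lam i ^ 2 ≤ incidences G := by
    have h1 : ∀ i ∈ I, lam i ^ 2
        = 2 * ∑ x : G, (if decide (Even x.1.card) = true
          then (∑ y, dirac G o x y * U y i) ^ 2 else 0) := by
      intro i hi
      have h2 := hV true i hi i hi
      rw [if_pos rfl] at h2
      have h3 : ∀ x : G, (if decide (Even x.1.card) = true
          then (∑ y, dirac G o x y * U y i) ^ 2 else 0)
          = lam i ^ 2 * (if decide (Even x.1.card) = true then U x i * U x i else 0) := by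
        intro x
        by_cases h : decide (Even x.1.card) = true
        · rw [if_pos h, if_pos h, hev x i]; ring
        · rw [if_neg h, if_neg h, mul_zero]
      simp only [h3]
      rw [← Finset.mul_sum, h2]; ring
    rw [Finset.sum_congr rfl h1, ← Finset.mul_sum, Finset.sum_comm]
    have h4 : ∀ x : G, ∑ i ∈ I, (if decide (Even x.1.card) = true
          then (∑ y, dirac G o x y * U y i) ^ 2 else 0)
        ≤ (if decide (Even x.1.card) = true then ∑ y, dirac G o x y ^ 2 else 0) / 2 := by
      intro x
      by_cases h : decide (Even x.1.card) = true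
      · simp only [if_pos h]
        refine hB false _ ?_
        intro y hy
        have h5 := eps_dirac o x y
        rw [hpow, hpow, if_pos h] at h5
        have h6 : decide (Even y.1.card) = true := by simpa using hy
        rw [if_pos h6] at h5
        rcases mul_eq_zero.1 h5 with h7 | h7
        · norm_num at h7
        · exact h7
      · simp only [if_neg h, Finset.sum_const_zero, zero_div, le_refl]
    have h5 : 2 * ∑ x : G, (if decide (Even x.1.card) = true
        then ∑ y, dirac G o x y ^ 2 else 0) / 2 ≤ incidences G := by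
      have h6 : 2 * ∑ x : G, (if decide (Even x.1.card) = true
        then ∑ y, dirac G o x y ^ 2 else 0) / 2 = ∑ x : G, ∑ y : G,
          (if decide (Even x.1.card) = true then
            ((if y.1 ⊆ x.1 ∧ x.1.card = y.1.card + 1 then (1 : ℝ) else 0)
            + (if x.1 ⊆ y.1 ∧ y.1.card = x.1.card + 1 then 1 else 0)) else 0) := by
        rw [Finset.mul_sum]
        refine Finset.sum_congr rfl fun x _ => ?_
        by_cases h : decide (Even x.1.card) = true
        · simp only [if_pos h]
          rw [mul_div_cancel₀ _ (two_ne_zero)]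
          exact Finset.sum_congr rfl fun y _ => dirac_sq o x y
        · simp only [if_neg h, Finset.sum_const_zero]; norm_num
      have h7 : (incidences G : ℝ) = ∑ x : G, ∑ y : G,
          (if y.1 ⊆ x.1 ∧ x.1.card = y.1.card + 1 then (1 : ℝ) else 0) := by
        rw [← Finset.sum_product' , Finset.univ_product_univ, incidences, Finset.sum_ite]
        simp
      have h8 : ∑ x : G, ∑ y : G,
          (if y.1 ⊆ x.1 ∧ x.1.card = y.1.card + 1 then (1 : ℝ) else 0)
          = ∑ x : G, ∑ y : G, (if decide (Even x.1.card) = true then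
              (if y.1 ⊆ x.1 ∧ x.1.card = y.1.card + 1 then (1 : ℝ) else 0) else 0)
            + ∑ x : G, ∑ y : G, (if decide (Even x.1.card) = true then
              (if x.1 ⊆ y.1 ∧ y.1.card = x.1.card + 1 then (1 : ℝ) else 0) else 0) := by
        rw [Finset.sum_comm (f := fun x y : G => (if decide (Even x.1.card) = true then
              (if x.1 ⊆ y.1 ∧ y.1.card = x.1.card + 1 then (1 : ℝ) else 0) else 0)),
          ← Finset.sum_add_distrib]
        refine Finset.sum_congr rfl fun x _ => ?_
        rw [← Finset.sum_add_distrib]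
        refine Finset.sum_congr rfl fun y _ => ?_
        by_cases h : y.1 ⊆ x.1 ∧ x.1.card = y.1.card + 1
        · rw [if_pos h]
          by_cases hx : Even x.1.card
          · have hy : ¬ Even y.1.card := by
              intro hy; rw [h.2] at hx; exact (Nat.even_add_one.1 hx) hy
            simp [hx, hy]
          · have hy : Even y.1.card := by
              by_contra hy; apply hx; rw [h.2]; exact Nat.even_add_one.2 hy
            simp [hx, hy]
        · rw [if_neg h]; simp
      rw [h6, h7, h8, ← Finset.sum_add_distrib]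
      refine le_of_eq (Finset.sum_congr rfl fun x _ => ?_)
      rw [← Finset.sum_add_distrib]
      refine Finset.sum_congr rfl fun y _ => ?_
      split_ifs <;> simp
    refine le_trans ?_ h5
    have := Finset.sum_le_sum (fun x (_ : x ∈ (Finset.univ : Finset G)) => h4 x)
    linarith
  rw [hKs]
  calc ∑ i ∈ K, lam i ≤ ∑ i ∈ I, lam i := by
        rw [hI, Finset.sum_filter]
        refine Finset.sum_le_sum fun i _ => ?_
        split_ifs with h
        · exact le_rfl
        · exact not_lt.1 h
    _ ≤ ∑ i ∈ I, (1 + lam i ^ 2 / 4) := by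
        refine Finset.sum_le_sum fun i _ => ?_
        nlinarith [sq_nonneg (lam i - 2)]
    _ = I.card + (∑ i ∈ I, lam i ^ 2) / 4 := by
        rw [Finset.sum_add_distrib, Finset.sum_const, nsmul_eq_mul, mul_one, Finset.sum_div]
    _ ≤ _ := by linarith

end upper

/-- The number of vertices. -/
def vertexCount {V : Type} (G : Finset (Finset V)) : ℕ :=
  ((Finset.univ : Finset G).filter (fun x => x.1.card = 1)).card

lemma connection_large {V : Type} [DecidableEq V] {G : Finset (Finset V)} (hG : IsComplex G)
    (k : ℕ) (hvk : vertexCount G ≤ k) :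
    (G.card : ℝ) ≤ specSum (connection_isHermitian G) k := by
  classical
  have hcardG : (Finset.univ : Finset G).card = G.card := by
    rw [Finset.card_univ, Fintype.card_coe]
  set W : Finset G := Finset.univ.filter (fun x : G => x.1.card = 1) with hW
  have hWc : ∀ t ∈ W, t.1.card = 1 := fun t ht => (Finset.mem_filter.1 ht).2
  have h3 := connection_ge W hWc
  have hall : (Finset.univ.filter (fun x : G => ∃ t ∈ W, t.1 ⊆ x.1)) = Finset.univ := by
    rw [Finset.filter_eq_self]
    intro x _
    obtain ⟨a, ha⟩ := hG.nonempty x.1 x.2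
    have hmem : ({a} : Finset V) ∈ G :=
      hG.down x.1 x.2 {a} (Finset.singleton_subset_iff.2 ha) (Finset.singleton_nonempty a)
    exact ⟨⟨{a}, hmem⟩, Finset.mem_filter.2 ⟨Finset.mem_univ _, Finset.card_singleton a⟩,
      Finset.singleton_subset_iff.2 ha⟩
  rw [hall, hcardG] at h3
  have htr : (connection G).trace = (G.card : ℝ) := by
    rw [Matrix.trace]
    have : ∀ x : G, (connection G).diag x = 1 := by
      intro x
      rw [Matrix.diag_apply, connection, Finset.inter_self, if_pos (hG.nonempty x.1 x.2)]
    simp only [this]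
    rw [Finset.sum_const, hcardG]; simp
  exact specSum_ge (connection_isHermitian G) W.card k hvk (G.card : ℝ) h3 htr.ge

/-- **Theorem.** Let `G` be a finite abstract simplicial complex (of any dimension).

(1) For every `k` with `vertexCount ≤ k ≤ n`, the sum of the `k` largest eigenvalues of the
connection matrix is at least `n`, the number of simplices.

(2) For every `k ≤ n`, the sum of the `k` largest eigenvalues of the Dirac matrix is at most
`min n₀ n₁ + N / 4`, where `n₀`, `n₁` are the numbers of simplices with an odd and with an even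
number of vertices and `N` is the number of pairs of a simplex and one of its facets.

(3) If `N ≤ 4 max n₀ n₁`, then for every `k` with `vertexCount ≤ k ≤ n` the sum of the `k` largest
eigenvalues of the connection matrix is at least that of the Dirac matrix. -/
theorem result (V : Type) [LinearOrder V] (G : Finset (Finset V)) (hG : IsComplex G)
    (o : G → ℤˣ) (k : ℕ) (hk : k ≤ G.card) :
    (vertexCount G ≤ k → (G.card : ℝ) ≤ specSum (connection_isHermitian G) k) ∧
    specSum (dirac_isHermitian G o) k
      ≤ min (parityCount G false : ℝ) (parityCount G true) + (incidences G : ℝ) / 4 ∧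
    (incidences G ≤ 4 * max (parityCount G false) (parityCount G true) → vertexCount G ≤ k →
      specSum (dirac_isHermitian G o) k ≤ specSum (connection_isHermitian G) k) := by
  have hcardG : Fintype.card G = G.card := Fintype.card_coe G
  have hk' := hk
  rw [← hcardG] at hk'
  have h0 := dirac_le o false k hk'
  have h1 := dirac_le o true k hk'
  have hsum : parityCount G false + parityCount G true = G.card := by
    rw [← hcardG, ← Finset.card_univ, parityCount, parityCount]
    rw [← Finset.card_filter_add_card_filter_not (s := (Finset.univ : Finset G))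
      (fun x : G => decide (Even x.1.card) = false)]
    congr 2
    ext x
    simp
  have hsumR : (parityCount G false : ℝ) + parityCount G true = G.card := by exact_mod_cast hsum
  refine ⟨fun hv => connection_large hG k hv, ?_, ?_⟩
  · rw [← min_add_add_right]
    exact le_min h0 h1
  · intro hN hv
    refine le_trans ?_ (connection_large hG k hv)
    have hN' : (incidences G : ℝ) ≤ 4 * max (parityCount G false : ℝ) (parityCount G true) := by
      exact_mod_cast hN
    rcases le_total (parityCount G false : ℝ) (parityCount G true) with h | h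
    · rw [max_eq_right h] at hN'
      linarith
    · rw [max_eq_left h] at hN'
      linarith

end Pool.Agent.Results.MP_0ad4be_co.FewFacets
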