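import Mathlib

set_option autoImplicit false

/-!
# Spectral sums of the connection matrix and of the Dirac matrix of a graph

For a finite abstract simplicial complex `G` with `n` simplices let `L` be the connection matrix and
`D` the Dirac matrix, and let `S_k` be the sum of the `k` largest eigenvalues. We prove
`S_k(L) ≥ S_k(D)` for all `k` if the dimension of `G` is at most one.

* Lower bound (every complex): if `T` is a set of `k` vertices, assign every simplex that contains a
  vertex of `T` to one of them. The classes are disjoint and `L` is the all-one matrix on each class,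
  so by Ky Fan's inequality `S_k(L)` is at least the number of simplices containing a vertex of `T`.
* For a graph this number is at least `∑ (1 + d_v / 2)` over `v ∈ T`.
* Upper bound: if `u = (a, b)` is a unit eigenvector of `D` with the eigenvalue `λ > 0`, then
  `|a|² = |b|² = 1 / 2`, and `λ ≤ 1 + λ² / 4 ≤ 1 + ∑ d_v a_v²`. The vectors `a` of the positive
  eigenvalues are orthogonal, so `S_k(D) ≤ ∑ q_v (1 + d_v / 2)` with weights `0 ≤ q_v ≤ 1`,
  `∑ q_v ≤ k`.
* If `k` is larger than the number of vertices, then `S_k(L) ≥ n` (concavity, `S_n(L) = n`) and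
  `S_k(D) ≤ ∑ (1 + d_v / 2) = n`.
-/

namespace Pool.Agent.Results.MP_0ad4be_co.Graphs

open Finset Matrix

section defs

/-- The sum of the `k` largest eigenvalues (with multiplicity) of a symmetric matrix. -/
noncomputable def specSum {ι : Type*} [Fintype ι] [DecidableEq ι] {A : Matrix ι ι ℝ}
    (hA : A.IsHermitian) (k : ℕ) : ℝ :=
  ∑ i : Fin (Fintype.card ι), if (i : ℕ) < k then hA.eigenvalues₀ i else 0

end defs

section spec

variable {ι : Type*} [Fintype ι] [DecidableEq ι]

lemma weights_le (K : Finset ι) (h q : ι → ℝ) (htop : ∀ i ∈ K, ∀ j, j ∉ K → h j ≤ h i)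
    (hq0 : ∀ i, 0 ≤ q i) (hq1 : ∀ i, q i ≤ 1)
    (hq : ∑ i, q i = K.card ∨ (∑ i, q i ≤ K.card ∧ ∀ i, 0 ≤ h i)) :
    ∑ i, q i * h i ≤ ∑ i ∈ K, h i := by
  rcases K.eq_empty_or_nonempty with rfl | hK
  · have h0 : ∑ i, q i = 0 := by
      rcases hq with hq | ⟨hq, -⟩
      · simpa using hq
      · exact le_antisymm (by simpa using hq) (Finset.sum_nonneg fun i _ => hq0 i)
    have : ∀ i, q i = 0 := fun i =>
      (Finset.sum_eq_zero_iff_of_nonneg (fun i _ => hq0 i)).1 h0 i (Finset.mem_univ i)
    simp [this]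
  · obtain ⟨i0, hi0, hmin⟩ := Finset.exists_min_image K h hK
    have h1 : ∑ i, q i * (h i - h i0) ≤ ∑ i ∈ K, (h i - h i0) := by
      have e : ∑ i ∈ K, (h i - h i0) = ∑ i, if i ∈ K then h i - h i0 else 0 := by
        rw [Finset.sum_ite_mem, Finset.univ_inter]
      rw [e]
      refine Finset.sum_le_sum fun i _ => ?_
      by_cases hi : i ∈ K
      · rw [if_pos hi]; nlinarith [hmin i hi, hq1 i, hq0 i]
      · rw [if_neg hi]; nlinarith [htop i0 hi0 i hi, hq0 i]
    have h2 : h i0 * ∑ i, q i ≤ h i0 * K.card := by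
      rcases hq with hq | ⟨hq, hpos⟩
      · rw [hq]
      · exact mul_le_mul_of_nonneg_left hq (hpos i0)
    have h3 : ∑ i, q i * h i = ∑ i, q i * (h i - h i0) + h i0 * ∑ i, q i := by
      rw [Finset.mul_sum, ← Finset.sum_add_distrib]
      exact Finset.sum_congr rfl fun i _ => by ring
    have h4 : ∑ i ∈ K, h i = ∑ i ∈ K, (h i - h i0) + h i0 * K.card := by
      rw [Finset.sum_sub_distrib, Finset.sum_const, nsmul_eq_mul]; ring
    linarith

lemma exists_top {A : Matrix ι ι ℝ} (hA : A.IsHermitian) (k : ℕ) (hk : k ≤ Fintype.card ι) :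
    ∃ K : Finset ι, K.card = k ∧ specSum hA k = ∑ i ∈ K, hA.eigenvalues i ∧
      ∀ i ∈ K, ∀ j, j ∉ K → hA.eigenvalues j ≤ hA.eigenvalues i := by
  set e : Fin (Fintype.card ι) ≃ ι := Fintype.equivOfCardEq (Fintype.card_fin _) with he
  have hev : ∀ i : Fin (Fintype.card ι), hA.eigenvalues (e i) = hA.eigenvalues₀ i := by
    intro i
    simp [Matrix.IsHermitian.eigenvalues, he]
  refine ⟨(Finset.univ.filter (fun i : Fin (Fintype.card ι) => (i : ℕ) < k)).map e.toEmbedding,
    ?_, ?_, ?_⟩
  · rw [Finset.card_map]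
    have : (Finset.univ.filter (fun i : Fin (Fintype.card ι) => (i : ℕ) < k)).card
        = min k (Fintype.card ι) := by
      rw [Fin.card_filter_val_lt]; exact min_comm _ _
    rw [this]; exact min_eq_left hk
  · rw [Finset.sum_map]
    simp only [Equiv.coe_toEmbedding, hev]
    rw [specSum, Finset.sum_filter]
  · intro i hi j hj
    simp only [Finset.mem_map, Finset.mem_filter, Finset.mem_univ, true_and,
      Equiv.coe_toEmbedding, not_exists, not_and] at hi hj
    obtain ⟨a, ha, rfl⟩ := hi
    have hj' : ¬ ((e.symm j : Fin _) : ℕ) < k := fun h => hj (e.symm j) h (by simp)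
    have := hev (e.symm j)
    rw [Equiv.apply_symm_apply] at this
    rw [this, hev]
    apply hA.eigenvalues₀_antitone
    have : (a : ℕ) ≤ (e.symm j : ℕ) := by omega
    exact this

lemma exists_U {A : Matrix ι ι ℝ} (hA : A.IsHermitian) :
    ∃ U : Matrix ι ι ℝ, (∀ i j, ∑ x, U x i * U x j = if i = j then 1 else 0) ∧
      ∀ x i, ∑ y, A x y * U y i = hA.eigenvalues i * U x i := by
  refine ⟨(hA.eigenvectorUnitary : Matrix ι ι ℝ), ?_, ?_⟩
  · intro i j
    have := Unitary.coe_star_mul_self hA.eigenvectorUnitary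
    have := congrFun (congrFun this i) j
    simpa [Matrix.star_eq_conjTranspose, Matrix.conjTranspose_eq_transpose_of_trivial,
      Matrix.mul_apply, Matrix.one_apply] using this
  · intro x i
    have := congrFun (hA.mulVec_eigenvectorBasis i) x
    simpa [Matrix.mulVec, dotProduct, Matrix.IsHermitian.eigenvectorUnitary_apply] using this

/-- Ky Fan: the trace of `A` times a projection of rank `k`. -/
lemma trace_le {A P : Matrix ι ι ℝ} (hA : A.IsHermitian) (k : ℕ) (hk : k ≤ Fintype.card ι)
    (hP : P * P = P) (hPt : Pᵀ = P) (htr : P.trace = k) :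
    (A * P).trace ≤ specSum hA k := by
  obtain ⟨K, hKc, hKs, htop⟩ := exists_top hA k hk
  set U : Matrix ι ι ℝ := (hA.eigenvectorUnitary : Matrix ι ι ℝ) with hU
  have hUU : Uᵀ * U = 1 := by
    have := Unitary.coe_star_mul_self hA.eigenvectorUnitary
    simpa [Matrix.star_eq_conjTranspose, Matrix.conjTranspose_eq_transpose_of_trivial] using this
  have hUU' : U * Uᵀ = 1 := by
    have := Unitary.coe_mul_star_self hA.eigenvectorUnitary
    simpa [Matrix.star_eq_conjTranspose, Matrix.conjTranspose_eq_transpose_of_trivial] using this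
  have hsp : A = U * Matrix.diagonal hA.eigenvalues * Uᵀ := by
    have := hA.spectral_theorem
    rw [Unitary.conjStarAlgAut_apply] at this
    simpa [Matrix.star_eq_conjTranspose, Matrix.conjTranspose_eq_transpose_of_trivial,
      Function.comp_def] using this
  set Q : Matrix ι ι ℝ := Uᵀ * P * U with hQ
  have hQQ : Q * Q = Q := by
    calc Q * Q = Uᵀ * P * (U * Uᵀ) * P * U := by simp only [hQ, Matrix.mul_assoc]
      _ = Uᵀ * (P * P) * U := by rw [hUU']; simp only [Matrix.mul_assoc, Matrix.one_mul]
      _ = Q := by rw [hP]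
  have hQt : Qᵀ = Q := by
    simp [hQ, Matrix.transpose_mul, hPt, Matrix.mul_assoc]
  have hQtr : Q.trace = k := by
    rw [hQ, Matrix.trace_mul_comm, ← Matrix.mul_assoc, hUU', Matrix.one_mul, htr]
  have hAP : (A * P).trace = ∑ i, Q i i * hA.eigenvalues i := by
    have e1 : (A * P).trace = (U * Matrix.diagonal hA.eigenvalues * Uᵀ * P).trace :=
      congrArg (fun M => (M * P).trace) hsp
    have : (A * P).trace = (Matrix.diagonal hA.eigenvalues * Q).trace := by
      rw [e1, hQ, Matrix.mul_assoc, Matrix.mul_assoc, Matrix.trace_mul_comm]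
      simp only [Matrix.mul_assoc]
    rw [this, Matrix.trace]
    refine Finset.sum_congr rfl fun i _ => ?_
    rw [Matrix.diag_apply, Matrix.diagonal_mul, mul_comm]
  have hsq : ∀ i, Q i i = ∑ j, Q i j ^ 2 := by
    intro i
    have := congrFun (congrFun hQQ i) i
    rw [Matrix.mul_apply] at this
    rw [← this]
    refine Finset.sum_congr rfl fun j _ => ?_
    have h2 := congrFun (congrFun hQt i) j
    rw [Matrix.transpose_apply] at h2
    rw [h2]; ring
  have h0 : ∀ i, 0 ≤ Q i i := fun i => by
    rw [hsq]; exact Finset.sum_nonneg fun j _ => sq_nonneg _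
  have h1 : ∀ i, Q i i ≤ 1 := fun i => by
    have : Q i i ^ 2 ≤ Q i i := by
      conv_rhs => rw [hsq]
      exact Finset.single_le_sum (f := fun j => Q i j ^ 2) (fun j _ => sq_nonneg _)
        (Finset.mem_univ i)
    nlinarith [h0 i]
  rw [hAP, hKs]
  refine weights_le K _ _ htop h0 h1 (Or.inl ?_)
  rw [hKc]; exact hQtr

lemma specSum_card {A : Matrix ι ι ℝ} (hA : A.IsHermitian) :
    specSum hA (Fintype.card ι) = A.trace := by
  obtain ⟨K, hKc, hKs, -⟩ := exists_top hA (Fintype.card ι) le_rfl
  have : K = Finset.univ := Finset.eq_univ_of_card K hKc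
  rw [hKs, this]
  have := hA.trace_eq_sum_eigenvalues
  simpa using this.symm

/-- Concavity: beyond `v`, the spectral sums are at least the minimum of `S_v` and `S_n`. -/
lemma specSum_ge {A : Matrix ι ι ℝ} (hA : A.IsHermitian) (v k : ℕ) (hvk : v ≤ k)
    (c : ℝ) (hv : c ≤ specSum hA v) (hn : c ≤ A.trace) :
    c ≤ specSum hA k := by
  by_cases hneg : ∀ i : Fin (Fintype.card ι), (i : ℕ) < k → 0 ≤ hA.eigenvalues₀ i
  · refine hv.trans ?_
    unfold specSum
    refine Finset.sum_le_sum fun i _ => ?_
    by_cases h1 : (i : ℕ) < v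
    · rw [if_pos h1, if_pos (by omega)]
    · rw [if_neg h1]
      split_ifs with h2
      · exact hneg i h2
      · exact le_rfl
  · push Not at hneg
    obtain ⟨i0, hi0, hneg⟩ := hneg
    rw [← specSum_card hA] at hn
    refine hn.trans ?_
    unfold specSum
    refine Finset.sum_le_sum fun i _ => ?_
    rw [if_pos i.2]
    split_ifs with h2
    · exact le_rfl
    · refine (hA.eigenvalues₀_antitone (show i0 ≤ i from ?_)).trans hneg.le
      have : (i0 : ℕ) ≤ i := by omega
      exact this

end spec
section complexes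

/-- A finite abstract simplicial complex: a finite set of nonempty finite sets closed under
taking nonempty subsets. -/
structure IsComplex {V : Type} [DecidableEq V] (G : Finset (Finset V)) : Prop where
  nonempty : ∀ x ∈ G, x.Nonempty
  down : ∀ x ∈ G, ∀ y : Finset V, y ⊆ x → y.Nonempty → y ∈ G

/-- The connection matrix. -/
def connection {V : Type} [DecidableEq V] (G : Finset (Finset V)) : Matrix G G ℝ :=
  fun x y => if (x.1 ∩ y.1).Nonempty then 1 else 0

/-- The exterior derivative. The vertices are ordered; the simplex `x` has the orientation given by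
this order if `o x = 1` and the opposite one if `o x = -1`. The incidence sign of `x` and its facet
`y` for the orientations given by the order is `(-1) ^ m`, where `m` is the number of vertices of
`y` before the vertex in `x \ y`. -/
def exteriorDerivative {V : Type} [LinearOrder V] (G : Finset (Finset V)) (o : G → ℤˣ) :
    Matrix G G ℝ :=
  fun x y => if y.1 ⊆ x.1 ∧ x.1.card = y.1.card + 1 then
    (((o x * o y * (-1) ^ (y.1.filter (fun z => ∀ w ∈ x.1 \ y.1, z < w)).card : ℤˣ) : ℤ) : ℝ)
    else 0

/-- The Dirac matrix. -/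
def dirac {V : Type} [LinearOrder V] (G : Finset (Finset V)) (o : G → ℤˣ) : Matrix G G ℝ :=
  exteriorDerivative G o + (exteriorDerivative G o)ᵀ

lemma connection_isHermitian {V : Type} [DecidableEq V] (G : Finset (Finset V)) :
    (connection G).IsHermitian := by
  ext x y
  simp [connection, Finset.inter_comm]

lemma dirac_isHermitian {V : Type} [LinearOrder V] (G : Finset (Finset V)) (o : G → ℤˣ) :
    (dirac G o).IsHermitian := by
  ext x y
  simp [dirac, add_comm]

end complexes

section lower

variable {V : Type} [DecidableEq V] {G : Finset (Finset V)}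

omit [DecidableEq V] in
lemma eq_of_sub {x y : G} (hx : x.1.card = 1) (hy : y.1.card = 1) (h : x.1 ⊆ y.1) : x = y :=
  Subtype.ext (Finset.eq_of_subset_of_card_le h (by omega))

/-- The lower bound: `S_k(L)` is at least the number of simplices hit by `k` vertices. -/
lemma connection_ge (T : Finset G) (hT : ∀ t ∈ T, t.1.card = 1) :
    ((Finset.univ.filter (fun x : G => ∃ t ∈ T, t.1 ⊆ x.1)).card : ℝ)
      ≤ specSum (connection_isHermitian G) T.card := by
  classical
  obtain ⟨c, hc⟩ : ∃ c : G → Option G,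
      ∀ x, c x = if h : ∃ t ∈ T, t.1 ⊆ x.1 then some h.choose else none := ⟨_, fun _ => rfl⟩
  have hc1 : ∀ x t, c x = some t → t ∈ T ∧ t.1 ⊆ x.1 := by
    intro x t h
    by_cases hx : ∃ t ∈ T, t.1 ⊆ x.1
    · have h2 : c x = some hx.choose := by rw [hc, dif_pos hx]
      rw [h2] at h
      have := hx.choose_spec
      rw [Option.some.inj h] at this
      exact this
    · have h2 : c x = none := by rw [hc, dif_neg hx]
      rw [h2] at h; cases h
  have hc2 : ∀ x, c x ≠ none ↔ ∃ t ∈ T, t.1 ⊆ x.1 := by
    intro x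
    by_cases hx : ∃ t ∈ T, t.1 ⊆ x.1
    · have h2 : c x = some hx.choose := by rw [hc, dif_pos hx]
      rw [h2]; simp only [ne_eq, reduceCtorEq, not_false_eq_true, true_iff]; exact hx
    · have h2 : c x = none := by rw [hc, dif_neg hx]
      rw [h2]; simp only [ne_eq, not_true_eq_false, false_iff]; exact hx
  have hc3 : ∀ t ∈ T, c t = some t := by
    intro t ht
    have h1 : c t ≠ none := (hc2 t).2 ⟨t, ht, Finset.Subset.refl _⟩
    obtain ⟨s, hs⟩ := Option.ne_none_iff_exists'.1 h1
    obtain ⟨hsT, hst⟩ := hc1 t s hs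
    rw [hs, eq_of_sub (hT s hsT) (hT t ht) hst]
  obtain ⟨N, hN⟩ : ∃ N : Option G → ℕ,
      ∀ s, (Finset.univ.filter (fun x => c x = s)).card = N s := ⟨_, fun _ => rfl⟩
  obtain ⟨P, hPdef⟩ : ∃ P : Matrix G G ℝ,
      ∀ x y, P x y = if c x = c y ∧ c x ≠ none then (1 : ℝ) / N (c x) else 0 :=
    ⟨fun x y => if c x = c y ∧ c x ≠ none then (1 : ℝ) / N (c x) else 0, fun _ _ => rfl⟩
  have hrow : ∀ x, c x ≠ none → ∑ y, P x y = 1 := by
    intro x hx
    have : ∀ y, P x y = if c y = c x then (1 : ℝ) / N (c x) else 0 := by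
      intro y
      rw [hPdef]
      by_cases h : c y = c x
      · rw [if_pos ⟨h.symm, hx⟩, if_pos h]
      · rw [if_neg (fun h' => h h'.1.symm), if_neg h]
    simp only [this]
    rw [← Finset.sum_filter, Finset.sum_const, nsmul_eq_mul]
    have hpos : 0 < N (c x) := by
      rw [← hN]
      exact Finset.card_pos.2 ⟨x, Finset.mem_filter.2 ⟨Finset.mem_univ _, rfl⟩⟩
    rw [hN]
    have hne : (N (c x) : ℝ) ≠ 0 := Nat.cast_ne_zero.2 hpos.ne'
    exact mul_one_div_cancel hne
  have hrow0 : ∀ x, c x = none → ∀ y, P x y = 0 := by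
    intro x hx y
    rw [hPdef, if_neg (fun h => h.2 hx)]
  have hPt : Pᵀ = P := by
    ext x y
    rw [Matrix.transpose_apply, hPdef, hPdef]
    by_cases h : c x = c y
    · rw [h]
    · rw [if_neg (fun h' => h h'.1.symm), if_neg (fun h' => h h'.1)]
  have hPP : P * P = P := by
    ext x y
    rw [Matrix.mul_apply]
    by_cases hx : c x = none
    · rw [hrow0 x hx y]
      exact Finset.sum_eq_zero fun z _ => by rw [hrow0 x hx z, zero_mul]
    · have : ∀ z, P x z * P z y = P x z * P x y := by
        intro z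
        by_cases h : c x = c z
        · have : P z y = P x y := by simp only [hPdef]; rw [h]
          rw [this]
        · have : P x z = 0 := by rw [hPdef, if_neg (fun h' => h h'.1)]
          rw [this]; ring
      simp only [this]
      rw [← Finset.sum_mul, hrow x hx, one_mul]
  have htr : P.trace = T.card := by
    have h1 : ∀ x, P x x = ∑ t ∈ T, if c x = some t then (1 : ℝ) / N (some t) else 0 := by
      intro x
      by_cases hx : c x = none
      · rw [hrow0 x hx x]
        exact (Finset.sum_eq_zero fun t _ => by rw [hx]; simp).symm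
      · obtain ⟨s, hs⟩ := Option.ne_none_iff_exists'.1 hx
        have hsT := (hc1 x s hs).1
        rw [Finset.sum_eq_single_of_mem s hsT]
        · rw [hPdef, if_pos ⟨rfl, hx⟩, if_pos hs, hs]
        · intro t _ hts
          rw [if_neg]
          rw [hs]
          exact fun h => hts (Option.some.inj h).symm
    rw [Matrix.trace]
    simp only [Matrix.diag_apply, h1]
    rw [Finset.sum_comm]
    have h2 : ∀ t ∈ T, ∑ x, (if c x = some t then (1 : ℝ) / N (some t) else 0) = 1 := by
      intro t ht
      have := hrow t (by rw [hc3 t ht]; simp)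
      refine Eq.trans ?_ this
      refine Finset.sum_congr rfl fun x _ => ?_
      rw [hPdef, hc3 t ht]
      by_cases h : c x = some t
      · rw [if_pos h, if_pos ⟨h.symm, by simp⟩]
      · rw [if_neg h, if_neg (fun h' => h h'.1.symm)]
    rw [Finset.sum_congr rfl h2]
    simp
  have hk : T.card ≤ Fintype.card G := Finset.card_le_univ T
  refine le_trans (le_of_eq ?_) (trace_le (connection_isHermitian G) T.card hk hPP hPt htr)
  rw [Matrix.trace]
  have h3 : ∀ x, (connection G * P).diag x = if ∃ t ∈ T, t.1 ⊆ x.1 then (1 : ℝ) else 0 := by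
    intro x
    rw [Matrix.diag_apply, Matrix.mul_apply]
    have h4 : ∀ y, connection G x y * P y x = P x y := by
      intro y
      have h5 : P y x = P x y := congrFun (congrFun hPt x) y
      rw [h5]
      by_cases h : c x = c y ∧ c x ≠ none
      · obtain ⟨s, hs⟩ := Option.ne_none_iff_exists'.1 h.2
        have h6 := (hc1 x s hs)
        have h7 := (hc1 y s (by rw [← h.1, hs]))
        have hne : (x.1 ∩ y.1).Nonempty := by
          have : s.1.Nonempty := Finset.card_pos.1 (by rw [hT s h6.1]; norm_num)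
          obtain ⟨a, ha⟩ := this
          exact ⟨a, Finset.mem_inter.2 ⟨h6.2 ha, h7.2 ha⟩⟩
        simp only [connection]
        rw [if_pos hne, one_mul]
      · have : P x y = 0 := by rw [hPdef, if_neg h]
        rw [this, mul_zero]
    simp only [h4]
    by_cases hx : c x = none
    · rw [if_neg (fun h => (hc2 x).2 h hx)]
      exact Finset.sum_eq_zero fun y _ => hrow0 x hx y
    · rw [if_pos ((hc2 x).1 hx)]
      exact hrow x hx
  simp only [h3]
  rw [Finset.sum_ite]
  simp

/-- The number of edges at a vertex. -/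
def deg (x : G) : ℕ := (Finset.univ.filter (fun e : G => e.1.card = 2 ∧ x.1 ⊆ e.1)).card

/-- The weight of a vertex. -/
noncomputable def wt (x : G) : ℝ := if x.1.card = 1 then 1 + (deg x : ℝ) / 2 else 0

lemma single_le (T : Finset G) (hT : ∀ t ∈ T, t.1.card = 1) (x : G) :
    (T.filter (fun t => t.1 ⊆ x.1)).card ≤ x.1.card := by
  classical
  have h1 : ((T.filter (fun t => t.1 ⊆ x.1)).image Subtype.val) ⊆ x.1.powersetCard 1 := by
    intro y hy
    rw [Finset.mem_image] at hy
    obtain ⟨t, ht, rfl⟩ := hy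
    rw [Finset.mem_filter] at ht
    exact Finset.mem_powersetCard.2 ⟨ht.2, hT t ht.1⟩
  have h2 := Finset.card_le_card h1
  rw [Finset.card_image_of_injective _ Subtype.val_injective, Finset.card_powersetCard,
    Nat.choose_one_right] at h2
  exact h2

lemma count (hdim : ∀ x ∈ G, x.card ≤ 2) (T : Finset G) (hT : ∀ t ∈ T, t.1.card = 1) :
    ∑ t ∈ T, wt t ≤ ((Finset.univ.filter (fun x : G => ∃ t ∈ T, t.1 ⊆ x.1)).card : ℝ) := by
  classical
  have h1 : ∑ t ∈ T, wt t
      = ∑ x : G, ∑ t ∈ T, ((if x = t then (1 : ℝ) else 0)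
        + (if x.1.card = 2 ∧ t.1 ⊆ x.1 then (1 : ℝ) / 2 else 0)) := by
    rw [Finset.sum_comm]
    refine Finset.sum_congr rfl fun t ht => ?_
    rw [Finset.sum_add_distrib, Finset.sum_ite_eq', if_pos (Finset.mem_univ _)]
    rw [wt, if_pos (hT t ht), ← Finset.sum_filter, Finset.sum_const, nsmul_eq_mul, deg]
    ring
  have h2 : ((Finset.univ.filter (fun x : G => ∃ t ∈ T, t.1 ⊆ x.1)).card : ℝ)
      = ∑ x : G, if ∃ t ∈ T, t.1 ⊆ x.1 then (1 : ℝ) else 0 := by
    rw [Finset.sum_ite]; simp
  rw [h1, h2]
  refine Finset.sum_le_sum fun x _ => ?_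
  by_cases hx : ∃ t ∈ T, t.1 ⊆ x.1
  · rw [if_pos hx]
    have hc2 := hdim x.1 x.2
    rw [Finset.sum_add_distrib]
    by_cases h2 : x.1.card = 2
    · have e1 : ∑ t ∈ T, (if x = t then (1 : ℝ) else 0) = 0 := by
        refine Finset.sum_eq_zero fun t ht => ?_
        rw [if_neg]
        intro h
        rw [h, hT t ht] at h2
        omega
      have e2 : ∑ t ∈ T, (if x.1.card = 2 ∧ t.1 ⊆ x.1 then (1 : ℝ) / 2 else 0) ≤ 1 := by
        have : ∀ t ∈ T, (if x.1.card = 2 ∧ t.1 ⊆ x.1 then (1 : ℝ) / 2 else 0)
            = if t.1 ⊆ x.1 then (1 : ℝ) / 2 else 0 := by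
          intro t _; simp only [h2, true_and]
        rw [Finset.sum_congr rfl this, ← Finset.sum_filter, Finset.sum_const, nsmul_eq_mul]
        have := single_le T hT x
        have h3 : ((T.filter (fun t => t.1 ⊆ x.1)).card : ℝ) ≤ 2 := by
          rw [h2] at this; exact_mod_cast this
        linarith
      linarith
    · have e1 : ∑ t ∈ T, (if x = t then (1 : ℝ) else 0) ≤ 1 := by
        rw [Finset.sum_ite_eq]
        split_ifs <;> norm_num
      have e2 : ∑ t ∈ T, (if x.1.card = 2 ∧ t.1 ⊆ x.1 then (1 : ℝ) / 2 else 0) = 0 := by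
        refine Finset.sum_eq_zero fun t _ => ?_
        rw [if_neg (fun h => h2 h.1)]
      linarith
  · rw [if_neg hx]
    refine le_of_eq (Finset.sum_eq_zero fun t ht => ?_)
    rw [if_neg (fun h : x = t => hx ⟨t, ht, by rw [h]⟩),
      if_neg (fun h => hx ⟨t, ht, h.2⟩), add_zero]

lemma exists_topset {ι : Type*} [DecidableEq ι] (s : Finset ι) (h : ι → ℝ) (k : ℕ)
    (hk : k ≤ s.card) :
    ∃ T ⊆ s, T.card = k ∧ ∀ i ∈ T, ∀ j ∈ s, j ∉ T → h j ≤ h i := by
  obtain ⟨T, hT, hmax⟩ := Finset.exists_max_image (s.powersetCard k) (fun T => ∑ i ∈ T, h i)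
    (Finset.powersetCard_nonempty.2 hk)
  rw [Finset.mem_powersetCard] at hT
  refine ⟨T, hT.1, hT.2, ?_⟩
  intro i hi j hj hjT
  have hj' : j ∉ T.erase i := fun h => hjT (Finset.mem_of_mem_erase h)
  have := hmax (insert j (T.erase i)) (by
    rw [Finset.mem_powersetCard]
    constructor
    · intro x hx
      rw [Finset.mem_insert] at hx
      rcases hx with rfl | hx
      · exact hj
      · exact hT.1 (Finset.mem_of_mem_erase hx)
    · rw [Finset.card_insert_of_notMem hj', Finset.card_erase_of_mem hi, hT.2]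
      have : 0 < T.card := Finset.card_pos.2 ⟨i, hi⟩
      omega)
  rw [Finset.sum_insert hj', ← Finset.add_sum_erase T h hi] at this
  linarith

end lower


section upper

variable {V : Type} [LinearOrder V] {G : Finset (Finset V)}

lemma dirac_symm (o : G → ℤˣ) (x y : G) : dirac G o x y = dirac G o y x := by
  simp [dirac, add_comm]

lemma unit_sq (u : ℤˣ) : (((u : ℤ) : ℝ)) ^ 2 = 1 := by
  rcases Int.units_eq_one_or u with rfl | rfl <;> simp

lemma ext_sq (o : G → ℤˣ) (x y : G) : exteriorDerivative G o x y ^ 2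
    = if y.1 ⊆ x.1 ∧ x.1.card = y.1.card + 1 then 1 else 0 := by
  unfold exteriorDerivative
  split_ifs
  · exact unit_sq _
  · norm_num

lemma ext_zero (o : G → ℤˣ) (x y : G) (h : ¬ (y.1 ⊆ x.1 ∧ x.1.card = y.1.card + 1)) :
    exteriorDerivative G o x y = 0 := by
  unfold exteriorDerivative
  rw [if_neg h]

lemma dirac_apply (o : G → ℤˣ) (x y : G) :
    dirac G o x y = exteriorDerivative G o x y + exteriorDerivative G o y x := rfl

lemma eps_dirac (o : G → ℤˣ) (x y : G) :
    ((-1 : ℝ) ^ x.1.card + (-1) ^ y.1.card) * dirac G o x y = 0 := by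
  rw [dirac_apply]
  by_cases h1 : y.1 ⊆ x.1 ∧ x.1.card = y.1.card + 1
  · rw [h1.2, pow_succ]; ring
  · by_cases h2 : x.1 ⊆ y.1 ∧ y.1.card = x.1.card + 1
    · rw [h2.2, pow_succ]; ring
    · rw [ext_zero o x y h1, ext_zero o y x h2]; ring

lemma edge_sq (hdim : ∀ x ∈ G, x.card ≤ 2) (o : G → ℤˣ) (x y : G)
    (hx : x.1.card = 2) : dirac G o x y ^ 2 = if y.1.card = 1 ∧ y.1 ⊆ x.1 then 1 else 0 := by
  have h2 : exteriorDerivative G o y x = 0 := by
    apply ext_zero
    intro h
    have := hdim y.1 y.2
    omega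
  rw [dirac_apply, h2, add_zero, ext_sq]
  have : (y.1 ⊆ x.1 ∧ x.1.card = y.1.card + 1) ↔ (y.1.card = 1 ∧ y.1 ⊆ x.1) := by
    constructor
    · rintro ⟨h, h'⟩; exact ⟨by omega, h⟩
    · rintro ⟨h, h'⟩; exact ⟨h', by omega⟩
  by_cases h : (y.1 ⊆ x.1 ∧ x.1.card = y.1.card + 1)
  · rw [if_pos h, if_pos (this.1 h)]
  · rw [if_neg h, if_neg (fun h' => h (this.2 h'))]

/-- Cauchy's inequality at an edge. -/
lemma edge_bound (hdim : ∀ x ∈ G, x.card ≤ 2) (o : G → ℤˣ) (x : G)
    (hx : x.1.card = 2) (u : G → ℝ) :
    (∑ y, dirac G o x y * u y) ^ 2 ≤ 2 * ∑ y, if y.1.card = 1 ∧ y.1 ⊆ x.1 then u y ^ 2 else 0 := by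
  have h1 : ∀ y, dirac G o x y * u y
      = dirac G o x y * (if y.1.card = 1 ∧ y.1 ⊆ x.1 then u y else 0) := by
    intro y
    by_cases h : y.1.card = 1 ∧ y.1 ⊆ x.1
    · rw [if_pos h]
    · have := edge_sq hdim o x y hx
      rw [if_neg h] at this
      rw [if_neg h, pow_eq_zero_iff two_ne_zero |>.1 this]; ring
  simp only [h1]
  refine (Finset.sum_mul_sq_le_sq_mul_sq _ _ _).trans ?_
  have h2 : ∑ y, dirac G o x y ^ 2 ≤ 2 := by
    simp only [edge_sq hdim o x _ hx]
    rw [← Finset.sum_filter, Finset.sum_const, nsmul_eq_mul, mul_one]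
    have := single_le (G := G) (Finset.univ.filter (fun y : G => y.1.card = 1))
      (fun t ht => (Finset.mem_filter.1 ht).2) x
    rw [Finset.filter_filter, hx] at this
    exact_mod_cast this
  have h3 : ∀ y : G, (if y.1.card = 1 ∧ y.1 ⊆ x.1 then u y else 0) ^ 2
      = if y.1.card = 1 ∧ y.1 ⊆ x.1 then u y ^ 2 else 0 := by
    intro y; split_ifs <;> simp
  simp only [h3]
  exact mul_le_mul_of_nonneg_right h2 (Finset.sum_nonneg fun y _ => by
    split_ifs
    · exact sq_nonneg _
    · exact le_rfl)

lemma dirac_le (hG : IsComplex G) (hdim : ∀ x ∈ G, x.card ≤ 2) (o : G → ℤˣ) (k : ℕ)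
    (hk : k ≤ Fintype.card G) :
    ∃ q : G → ℝ, (∀ x, 0 ≤ q x) ∧ (∀ x, q x ≤ 1) ∧ (∀ x, x.1.card ≠ 1 → q x = 0) ∧
      ∑ x, q x ≤ k ∧ specSum (dirac_isHermitian G o) k ≤ ∑ x, q x * wt x := by
  classical
  obtain ⟨K, hKc, hKs, -⟩ := exists_top (dirac_isHermitian G o) k hk
  obtain ⟨U, hU, hev⟩ := exists_U (dirac_isHermitian G o)
  set lam := (dirac_isHermitian G o).eigenvalues with hlam
  set I := K.filter (fun i => 0 < lam i) with hI
  have hIpos : ∀ i ∈ I, 0 < lam i := fun i hi => (Finset.mem_filter.1 hi).2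
  -- the reflection
  have hr : ∀ i ∈ I, ∀ j ∈ I, ∑ x : G, (-1 : ℝ) ^ x.1.card * (U x i * U x j) = 0 := by
    intro i hi j hj
    have e1 : ∑ x : G, ∑ y : G, ((-1 : ℝ) ^ x.1.card * dirac G o x y) * (U x i * U y j)
        = lam j * ∑ x : G, (-1 : ℝ) ^ x.1.card * (U x i * U x j) := by
      rw [Finset.mul_sum]
      refine Finset.sum_congr rfl fun x _ => ?_
      have := hev x j
      calc ∑ y : G, ((-1 : ℝ) ^ x.1.card * dirac G o x y) * (U x i * U y j)
          = ((-1 : ℝ) ^ x.1.card * U x i) * ∑ y : G, dirac G o x y * U y j := by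
            rw [Finset.mul_sum]; exact Finset.sum_congr rfl fun y _ => by ring
        _ = _ := by rw [this]; ring
    have e2 : ∑ x : G, ∑ y : G, ((-1 : ℝ) ^ y.1.card * dirac G o x y) * (U x i * U y j)
        = lam i * ∑ x : G, (-1 : ℝ) ^ x.1.card * (U x i * U x j) := by
      rw [Finset.sum_comm, Finset.mul_sum]
      refine Finset.sum_congr rfl fun y _ => ?_
      have := hev y i
      calc ∑ x : G, ((-1 : ℝ) ^ y.1.card * dirac G o x y) * (U x i * U y j)
          = ((-1 : ℝ) ^ y.1.card * U y j) * ∑ x : G, dirac G o y x * U x i := by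
            rw [Finset.mul_sum]
            exact Finset.sum_congr rfl fun x _ => by rw [dirac_symm o y x]; ring
        _ = _ := by rw [this]; ring
    have e3 : (lam j + lam i) * ∑ x : G, (-1 : ℝ) ^ x.1.card * (U x i * U x j) = 0 := by
      rw [add_mul, ← e1, ← e2, ← Finset.sum_add_distrib]
      refine Finset.sum_eq_zero fun x _ => ?_
      rw [← Finset.sum_add_distrib]
      refine Finset.sum_eq_zero fun y _ => ?_
      rw [← add_mul, ← add_mul, eps_dirac, zero_mul]
    have := hIpos i hi
    have := hIpos j hj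
    rcases mul_eq_zero.1 e3 with h | h
    · linarith
    · exact h
  have hcard : ∀ x : G, x.1.card = 1 ∨ x.1.card = 2 := by
    intro x
    have h1 := hdim x.1 x.2
    have h2 := Finset.card_pos.2 (hG.nonempty x.1 x.2)
    omega
  have hV : ∀ i ∈ I, ∀ j ∈ I, ∑ x : G, (if x.1.card = 1 then U x i * U x j else 0)
      = if i = j then 1 / 2 else 0 := by
    intro i hi j hj
    have h1 : ∀ x : G, (if x.1.card = 1 then U x i * U x j else 0)
        = (U x i * U x j - (-1 : ℝ) ^ x.1.card * (U x i * U x j)) / 2 := by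
      intro x
      rcases hcard x with h | h
      · rw [if_pos h, h]; ring
      · rw [if_neg (by omega), h]; ring
    simp only [h1]
    rw [← Finset.sum_div, Finset.sum_sub_distrib, hr i hi j hj, hU i j]
    split_ifs <;> norm_num
  have hE : ∀ i ∈ I, ∑ x : G, (if x.1.card = 2 then U x i ^ 2 else 0) = 1 / 2 := by
    intro i hi
    have h1 : ∀ x : G, (if x.1.card = 2 then U x i ^ 2 else 0)
        = U x i * U x i - (if x.1.card = 1 then U x i * U x i else 0) := by
      intro x
      rcases hcard x with h | h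
      · rw [if_pos h, if_neg (by omega : ¬ x.1.card = 2)]; ring
      · rw [if_pos h, if_neg (by omega : ¬ x.1.card = 1)]; ring
    simp only [h1]
    rw [Finset.sum_sub_distrib, hV i hi i hi, hU i i, if_pos rfl, if_pos rfl]
    norm_num
  -- the weights
  set s : G → ℝ := fun x => ∑ i ∈ I, U x i ^ 2 with hs
  have hs0 : ∀ x, 0 ≤ s x := fun x => Finset.sum_nonneg fun i _ => sq_nonneg _
  have hs1 : ∀ v : G, v.1.card = 1 → s v ≤ 1 / 2 := by
    intro v hv
    have h1 : s v ^ 2 ≤ ∑ x : G, (if x.1.card = 1 then (∑ i ∈ I, U v i * U x i) ^ 2 else 0) := by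
      have h2 := Finset.single_le_sum
        (f := fun x : G => (if x.1.card = 1 then (∑ i ∈ I, U v i * U x i) ^ 2 else 0))
        (fun x _ => by
          show 0 ≤ (if x.1.card = 1 then (∑ i ∈ I, U v i * U x i) ^ 2 else 0)
          split_ifs
          · exact sq_nonneg _
          · exact le_rfl) (Finset.mem_univ v)
      refine le_trans (le_of_eq ?_) h2
      show s v ^ 2 = (if v.1.card = 1 then (∑ i ∈ I, U v i * U v i) ^ 2 else 0)
      rw [if_pos hv]
      congr 1
      exact Finset.sum_congr rfl fun i _ => by ring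
    have h3 : ∑ x : G, (if x.1.card = 1 then (∑ i ∈ I, U v i * U x i) ^ 2 else 0) = s v / 2 := by
      have h4 : ∀ x : G, (if x.1.card = 1 then (∑ i ∈ I, U v i * U x i) ^ 2 else 0)
          = ∑ i ∈ I, ∑ j ∈ I, U v i * U v j * (if x.1.card = 1 then U x i * U x j else 0) := by
        intro x
        by_cases h : x.1.card = 1
        · simp only [if_pos h]
          rw [sq, Finset.sum_mul_sum]
          exact Finset.sum_congr rfl fun i _ => Finset.sum_congr rfl fun j _ => by ring
        · simp only [if_neg h, mul_zero, Finset.sum_const_zero]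
      simp only [h4]
      rw [Finset.sum_comm]
      have h5 : ∀ i ∈ I, ∑ x : G, ∑ j ∈ I, U v i * U v j
          * (if x.1.card = 1 then U x i * U x j else 0) = U v i ^ 2 / 2 := by
        intro i hi
        rw [Finset.sum_comm]
        have h6 : ∀ j ∈ I, ∑ x : G, U v i * U v j
            * (if x.1.card = 1 then U x i * U x j else 0)
            = if i = j then U v i ^ 2 / 2 else 0 := by
          intro j hj
          rw [← Finset.mul_sum, hV i hi j hj]
          split_ifs with h
          · rw [h]; ring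
          · ring
        rw [Finset.sum_congr rfl h6, Finset.sum_ite_eq, if_pos hi]
      rw [Finset.sum_congr rfl h5, ← Finset.sum_div]
    rw [h3] at h1
    by_contra hcon
    push Not at hcon
    nlinarith
  have hsum : ∑ x : G, (if x.1.card = 1 then 2 * s x else 0) = I.card := by
    have h1 : ∀ x : G, (if x.1.card = 1 then 2 * s x else 0)
        = ∑ i ∈ I, 2 * (if x.1.card = 1 then U x i * U x i else 0) := by
      intro x
      by_cases h : x.1.card = 1
      · simp only [if_pos h, hs]
        rw [Finset.mul_sum]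
        exact Finset.sum_congr rfl fun i _ => by ring
      · simp only [if_neg h, mul_zero, Finset.sum_const_zero]
    simp only [h1]
    rw [Finset.sum_comm]
    have h2 : ∀ i ∈ I, ∑ x : G, 2 * (if x.1.card = 1 then U x i * U x i else 0) = 1 := by
      intro i hi
      rw [← Finset.mul_sum, hV i hi i hi, if_pos rfl]; norm_num
    rw [Finset.sum_congr rfl h2]; simp
  have hIk : (I.card : ℝ) ≤ k := by
    rw [← hKc]
    exact_mod_cast Finset.card_le_card (Finset.filter_subset _ _)
  -- the eigenvalues
  have hlamsq : ∀ i ∈ I, lam i ^ 2 ≤ 4 * ∑ v : G, (if v.1.card = 1 then deg v * U v i ^ 2 else 0) := by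
    intro i hi
    have h1 : lam i ^ 2 * (1 / 2)
        = ∑ x : G, (if x.1.card = 2 then (∑ y, dirac G o x y * U y i) ^ 2 else 0) := by
      rw [← hE i hi, Finset.mul_sum]
      refine Finset.sum_congr rfl fun x _ => ?_
      by_cases h : x.1.card = 2
      · rw [if_pos h, if_pos h, hev x i]; ring
      · rw [if_neg h, if_neg h, mul_zero]
    have h2 : ∑ x : G, (if x.1.card = 2 then (∑ y, dirac G o x y * U y i) ^ 2 else 0)
        ≤ ∑ x : G, ∑ y : G, (if y.1.card = 1 then
          (if x.1.card = 2 ∧ y.1 ⊆ x.1 then 2 * U y i ^ 2 else 0) else 0) := by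
      refine Finset.sum_le_sum fun x _ => ?_
      by_cases h : x.1.card = 2
      · rw [if_pos h]
        refine (edge_bound hdim o x h _).trans (le_of_eq ?_)
        rw [Finset.mul_sum]
        refine Finset.sum_congr rfl fun y _ => ?_
        by_cases h1 : y.1.card = 1
        · by_cases h2 : y.1 ⊆ x.1
          · rw [if_pos ⟨h1, h2⟩, if_pos h1, if_pos ⟨h, h2⟩]
          · rw [if_neg (fun h' => h2 h'.2), if_pos h1, if_neg (fun h' => h2 h'.2), mul_zero]
        · rw [if_neg (fun h' => h1 h'.1), if_neg h1, mul_zero]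
      · rw [if_neg h]
        refine le_of_eq (Finset.sum_eq_zero fun y _ => ?_).symm
        by_cases h1 : y.1.card = 1
        · rw [if_pos h1, if_neg (fun h' => h h'.1)]
        · rw [if_neg h1]
    rw [Finset.sum_comm] at h2
    have h3 : ∑ y : G, ∑ x : G, (if y.1.card = 1 then
          (if x.1.card = 2 ∧ y.1 ⊆ x.1 then 2 * U y i ^ 2 else 0) else 0)
        = 2 * ∑ v : G, (if v.1.card = 1 then deg v * U v i ^ 2 else 0) := by
      rw [Finset.mul_sum]
      refine Finset.sum_congr rfl fun y _ => ?_
      by_cases h1 : y.1.card = 1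
      · simp only [if_pos h1]
        rw [← Finset.sum_filter, Finset.sum_const, nsmul_eq_mul, deg]
        ring
      · simp only [if_neg h1, Finset.sum_const_zero, mul_zero]
    rw [h3] at h2
    linarith
  refine ⟨fun x => if x.1.card = 1 then 2 * s x else 0, ?_, ?_, ?_, ?_, ?_⟩
  · intro x
    show 0 ≤ (if x.1.card = 1 then 2 * s x else 0)
    split_ifs
    · linarith [hs0 x]
    · exact le_rfl
  · intro x
    show (if x.1.card = 1 then 2 * s x else 0) ≤ 1
    split_ifs with h
    · linarith [hs1 x h]
    · norm_num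
  · intro x hx
    show (if x.1.card = 1 then 2 * s x else 0) = 0
    rw [if_neg hx]
  · rw [hsum]; exact hIk
  · rw [hKs]
    calc ∑ i ∈ K, lam i ≤ ∑ i ∈ I, lam i := by
          rw [hI, Finset.sum_filter]
          refine Finset.sum_le_sum fun i _ => ?_
          split_ifs with h
          · exact le_rfl
          · exact not_lt.1 h
      _ ≤ ∑ i ∈ I, (1 + lam i ^ 2 / 4) := by
          refine Finset.sum_le_sum fun i _ => ?_
          nlinarith [sq_nonneg (lam i - 2)]
      _ ≤ ∑ i ∈ I, (1 + ∑ v : G, (if v.1.card = 1 then deg v * U v i ^ 2 else 0)) := by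
          refine Finset.sum_le_sum fun i hi => ?_
          linarith [hlamsq i hi]
      _ = ∑ x : G, (if x.1.card = 1 then 2 * s x else 0) * wt x := by
          rw [Finset.sum_add_distrib, Finset.sum_const, nsmul_eq_mul, mul_one, ← hsum,
            Finset.sum_comm, ← Finset.sum_add_distrib]
          refine Finset.sum_congr rfl fun x _ => ?_
          by_cases h : x.1.card = 1
          · simp only [if_pos h, wt, hs]
            rw [← Finset.mul_sum]
            ring
          · simp only [if_neg h, Finset.sum_const_zero, zero_mul, add_zero]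

end upper

lemma graph_case (V : Type) [LinearOrder V] (G : Finset (Finset V)) (hG : IsComplex G)
    (hdim : ∀ x ∈ G, x.card ≤ 2) (o : G → ℤˣ) (k : ℕ) (hk : k ≤ G.card) :
    specSum (dirac_isHermitian G o) k ≤ specSum (connection_isHermitian G) k := by
  classical
  have hcardG : Fintype.card G = G.card := Fintype.card_coe G
  rw [← hcardG] at hk
  obtain ⟨q, hq0, hq1, hqV, hqk, hD⟩ := dirac_le hG hdim o k hk
  set W : Finset G := Finset.univ.filter (fun x : G => x.1.card = 1) with hW
  have hWc : ∀ t ∈ W, t.1.card = 1 := fun t ht => (Finset.mem_filter.1 ht).2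
  have hwt0 : ∀ x : G, 0 ≤ wt x := by
    intro x
    unfold wt
    split_ifs
    · positivity
    · exact le_rfl
  by_cases hkW : k ≤ W.card
  · obtain ⟨T, hTW, hTk, htop⟩ := exists_topset W wt k hkW
    have h1 : ∑ x, q x * wt x ≤ ∑ t ∈ T, wt t := by
      refine weights_le T wt q ?_ hq0 hq1 (Or.inr ⟨by rw [hTk]; exact hqk, hwt0⟩)
      intro i hi j hj
      by_cases hjW : j ∈ W
      · exact htop i hi j hjW hj
      · have : j.1.card ≠ 1 := fun h => hjW (Finset.mem_filter.2 ⟨Finset.mem_univ _, h⟩)
        have h2 : wt j = 0 := by unfold wt; rw [if_neg this]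
        rw [h2]; exact hwt0 i
    have h2 := count hdim T (fun t ht => hWc t (hTW ht))
    have h3 := connection_ge T (fun t ht => hWc t (hTW ht))
    rw [hTk] at h3
    linarith
  · push Not at hkW
    have h1 : ∑ x, q x * wt x ≤ ∑ t ∈ W, wt t := by
      rw [hW, Finset.sum_filter]
      refine Finset.sum_le_sum fun x _ => ?_
      split_ifs with h
      · nlinarith [hq1 x, hwt0 x]
      · rw [hqV x h, zero_mul]
    have h2 := count hdim W hWc
    have h3 := connection_ge W hWc
    have hall : (Finset.univ.filter (fun x : G => ∃ t ∈ W, t.1 ⊆ x.1)) = Finset.univ := by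
      rw [Finset.filter_eq_self]
      intro x _
      obtain ⟨a, ha⟩ := hG.nonempty x.1 x.2
      have hmem : ({a} : Finset V) ∈ G :=
        hG.down x.1 x.2 {a} (Finset.singleton_subset_iff.2 ha) (Finset.singleton_nonempty a)
      exact ⟨⟨{a}, hmem⟩, Finset.mem_filter.2 ⟨Finset.mem_univ _, Finset.card_singleton a⟩,
        Finset.singleton_subset_iff.2 ha⟩
    rw [hall] at h2 h3
    have htr : (connection G).trace = ((Finset.univ : Finset G).card : ℝ) := by
      rw [Matrix.trace]
      have : ∀ x : G, (connection G).diag x = 1 := by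
        intro x
        rw [Matrix.diag_apply, connection, Finset.inter_self, if_pos (hG.nonempty x.1 x.2)]
      simp only [this]
      simp
    have h4 := specSum_ge (connection_isHermitian G) W.card k hkW.le
      ((Finset.univ : Finset G).card : ℝ) h3 htr.ge
    linarith


/-- **Theorem.** Let `G` be a finite abstract simplicial complex with `n` simplices.

(1) For every set `T` of `k` vertices, the sum of the `k` largest eigenvalues of the connection
matrix of `G` is at least the number of simplices that contain a vertex of `T`.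

(2) If all simplices have at most two vertices (`G` is a graph), then for every choice of
orientations and every `k ≤ n`, the sum of the `k` largest eigenvalues of the connection matrix is
at least the sum of the `k` largest eigenvalues of the Dirac matrix. -/
theorem result (V : Type) [LinearOrder V] (G : Finset (Finset V)) (hG : IsComplex G) :
    (∀ T : Finset G, (∀ t ∈ T, t.1.card = 1) →
      ((Finset.univ.filter (fun x : G => ∃ t ∈ T, t.1 ⊆ x.1)).card : ℝ)
        ≤ specSum (connection_isHermitian G) T.card) ∧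
    ((∀ x ∈ G, x.card ≤ 2) → ∀ (o : G → ℤˣ) (k : ℕ), k ≤ G.card →
      specSum (dirac_isHermitian G o) k ≤ specSum (connection_isHermitian G) k) :=
  ⟨fun T hT => connection_ge T hT, fun hdim o k hk => graph_case V G hG hdim o k hk⟩

end Pool.Agent.Results.MP_0ad4be_co.Graphs
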